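import Pool.Agent.Helper52.KT.St

set_option autoImplicit false
set_option linter.unusedSectionVars false

/-! Project KT, module EC: the number of exceptional colours. -/

namespace Pool.Agent.Helper29.KT

open Pool.Agent.Helper26.Kempe Pool.Agent.Helper52.KT Pool.Agent.Helper52.KT.St
open Pool.Agent.Helper52.KR (N Zc Mn Hs)
open scoped Classical

theorem hEC : EC := by
  intro V _ k G f M D o z y0 L hD
  set T : List V := y0 :: L with hT
  set Big : Finset (Fin k) := Finset.univ.filter (fun c => M < (S G f z c).card) with hBig
  set Cm : ℕ → Finset (Fin k) := fun m => Finset.univ.filter (fun c => c ≠ f z ∧ Cx G f M (T.drop m) z c)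
    with hCm
  have hsub : Exc G f M o z y0 L ⊆ ({f y0} ∪ Big) ∪ (Finset.range T.length).biUnion Cm := by
    intro c hc
    simp only [Exc, Finset.mem_filter, Finset.mem_univ, true_and] at hc
    obtain ⟨-, h2, h3⟩ := hc
    rcases h3 with h | h | ⟨m, h⟩
    · exact Finset.mem_union_left _ (Finset.mem_union_left _ (by simp [h]))
    · exact Finset.mem_union_left _ (Finset.mem_union_right _ (by simp [hBig, h]))
    · refine Finset.mem_union_right _ ?_
      have hm : m < T.length := by
        by_contra hcon
        have h4 : T.drop m = [] := List.drop_eq_nil_of_le (by omega)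
        rw [← hT, h4] at h
        exact h
      rw [Finset.mem_biUnion]
      exact ⟨m, Finset.mem_range.mpr hm, by
        simp only [hCm, Finset.mem_filter, Finset.mem_univ, true_and]
        exact ⟨h2, h⟩⟩
  have hcard1 : (Exc G f M o z y0 L).card ≤ (1 + Big.card) + ∑ m ∈ Finset.range T.length, (Cm m).card := by
    refine (Finset.card_le_card hsub).trans ?_
    refine (Finset.card_union_le _ _).trans ?_
    refine Nat.add_le_add ?_ Finset.card_biUnion_le
    refine (Finset.card_union_le _ _).trans ?_
    simp
  have hbigsum : Big.card * (M + 1) ≤ D := by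
    have h1 : Big.card * (M + 1) ≤ ∑ c ∈ Big, (S G f z c).card := by
      rw [← smul_eq_mul]
      refine Finset.card_nsmul_le_sum _ _ _ ?_
      intro c hc
      simp only [hBig, Finset.mem_filter, Finset.mem_univ, true_and] at hc
      omega
    have h2 : ∑ c ∈ Big, (S G f z c).card = (Big.biUnion (fun c => S G f z c)).card := by
      rw [Finset.card_biUnion]
      intro c _ c' _ hcc
      show Disjoint (S G f z c) (S G f z c')
      rw [Finset.disjoint_left]
      intro y hy hy'
      rw [mem_S] at hy hy'
      exact hcc (hy.2.symm.trans hy'.2)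
    have h3 : (Big.biUnion (fun c => S G f z c)) ⊆ N G z := by
      intro y hy
      rw [Finset.mem_biUnion] at hy
      obtain ⟨c, -, hy⟩ := hy
      rw [mem_S] at hy
      simp only [N, Finset.mem_filter, Finset.mem_univ, true_and]
      exact hy.1
    rw [h2] at h1
    exact h1.trans ((Finset.card_le_card h3).trans (hD z))
  have hbig : (Big.card : ℝ) ≤ (D : ℝ) / ((M : ℝ) + 1) := by
    rw [le_div_iff₀ (by positivity)]
    exact_mod_cast hbigsum
  have hC : ∀ m, (Cm m).card = bad G f M (T.drop m) z := fun m => rfl
  have h5 : ((Exc G f M o z y0 L).card : ℝ) ≤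
      (1 + (Big.card : ℝ)) + ∑ m ∈ Finset.range T.length, ((Cm m).card : ℝ) := by
    exact_mod_cast hcard1
  refine h5.trans ?_
  have h6 : ∑ m ∈ Finset.range T.length, ((Cm m).card : ℝ) =
      ∑ m ∈ Finset.range T.length, (bad G f M (T.drop m) z : ℝ) :=
    Finset.sum_congr rfl (fun m _ => by rw [hC m])
  rw [h6]
  linarith

end Pool.Agent.Helper29.KT
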