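import Pool.Agent.Helper7.KT.St

set_option autoImplicit false

/-!
# Project KT, module PSA (MP_5176ab_co): powers and binomial coefficients
-/

namespace Pool.Agent.Helper29.KT

open Finset SimpleGraph Filter Topology
open EX Pool.Agent.Helper7.KT

open scoped Classical

theorem hPSA : StPSA := by
  intro b ε hε
  have h1 := (isEquivalent_descFactorial b).symm
  have h2 := h1.isLittleO.def hε
  rw [eventually_atTop] at h2
  obtain ⟨d₀, hd⟩ := h2
  refine ⟨(d₀ : ℝ) ^ b, by positivity, fun d => ?_⟩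
  have hD : (d.descFactorial b : ℝ) = (b.factorial : ℝ) * (d.choose b : ℝ) := by
    rw [Nat.descFactorial_eq_factorial_mul_choose]
    push_cast
    ring
  have hD0 : (0 : ℝ) ≤ (d.descFactorial b : ℝ) := Nat.cast_nonneg _
  rw [← hD]
  rcases le_or_gt d₀ d with h | h
  · have h3 := hd d h
    rw [Pi.sub_apply, Real.norm_eq_abs, Real.norm_eq_abs, abs_of_nonneg hD0] at h3
    have h4 := (abs_le.1 h3).2
    have h5 : (0 : ℝ) ≤ (d₀ : ℝ) ^ b := by positivity
    linarith
  · have h3 : (d : ℝ) ^ b ≤ (d₀ : ℝ) ^ b := by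
      apply pow_le_pow_left₀ (Nat.cast_nonneg d)
      exact_mod_cast h.le
    have h4 : (0 : ℝ) ≤ (1 + ε) * (d.descFactorial b : ℝ) :=
      mul_nonneg (by linarith) hD0
    linarith

end Pool.Agent.Helper29.KT
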